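import Pool.Agent.Q20.SI.Stm

set_option autoImplicit false
set_option linter.unusedSectionVars false

/-!
# Project SI (helper20), job NRM: logarithms of norms
-/

namespace Pool.Agent.Q190.SI

open NumberField IsDedekindDomain Pool.Agent.Q20.RS Pool.Agent.Q20.SI
open scoped NNReal WithZero

theorem log_toNN {e : ℝ≥0} (he : e ≠ 0) (a : ℤᵐ⁰) :
    Real.log ((WithZeroMulInt.toNNReal he a : ℝ≥0) : ℝ) = ((WithZero.log a : ℤ) : ℝ) * Real.log e := by
  by_cases ha : a = 0
  · rw [ha, map_zero, WithZero.log_zero]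
    simp
  · rw [WithZeroMulInt.toNNReal_neg_apply he ha]
    obtain ⟨k, rfl⟩ : ∃ k : ℤ, a = WithZero.exp k := ⟨WithZero.log a, (WithZero.exp_log ha).symm⟩
    rw [WithZero.log_exp]
    push_cast
    rw [Real.log_zpow]
    rfl

section prime

variable {M : Type} [Field M] [NumberField M]

theorem logv_inl (x : M) (w : HeightOneSpectrum (𝓞 M)) :
    logv x (.inl w) = ((WithZero.log (w.valuation M x) : ℤ) : ℝ) * Real.log (Ideal.absNorm w.asIdeal) := by
  show Real.log (NumberField.HeightOneSpectrum.adicAbv M w x) = _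
  rw [NumberField.HeightOneSpectrum.adicAbv_def, log_toNN]
  simp

theorem absNorm_gt (w : HeightOneSpectrum (𝓞 M)) : 1 < Ideal.absNorm w.asIdeal :=
  NumberField.HeightOneSpectrum.one_lt_absNorm w

theorem abv_eq_one_iff (x : M) (w : HeightOneSpectrum (𝓞 M)) :
    NumberField.HeightOneSpectrum.adicAbv M w x = 1 ↔ w.valuation M x = 1 := by
  rw [NumberField.HeightOneSpectrum.adicAbv_def]
  have h := WithZeroMulInt.toNNReal_eq_one_iff (e := (Ideal.absNorm w.asIdeal : ℝ≥0))
    (w.valuation M x) (NumberField.HeightOneSpectrum.absNorm_ne_zero w)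
    (NumberField.HeightOneSpectrum.one_lt_absNorm_nnreal w).ne'
  rw [← h]
  exact_mod_cast Iff.rfl

end prime

section tower

variable {M N : Type} [Field M] [NumberField M] [Field N] [NumberField N] [Algebra M N]

theorem exists_n : ∃ n : Pl N → ℕ, (∀ w, 0 < n w) ∧ ∀ (x : M) (w : Pl N),
    logv (algebraMap M N x) w = n w * logv x (dn M w) := by
  have h1 : ∀ w : Pl N, ∃ n : ℕ, 0 < n ∧ ∀ x : M, logv (algebraMap M N x) w = n * logv x (dn M w) := by
    rintro (P | v)
    · have hl : P.asIdeal.LiesOver (P.under (𝓞 M)).asIdeal := ⟨rfl⟩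
      have hf : Ideal.absNorm P.asIdeal = Ideal.absNorm (P.under (𝓞 M)).asIdeal ^
          ((P.under (𝓞 M)).asIdeal.inertiaDeg' P.asIdeal) :=
        Ideal.absNorm_eq_pow_inertiaDeg'_of_liesOver P.asIdeal (P.under (𝓞 M)).asIdeal
          (P.under (𝓞 M)).isPrime (P.under (𝓞 M)).ne_bot
      refine ⟨(P.under (𝓞 M)).asIdeal.ramificationIdx' P.asIdeal *
        (P.under (𝓞 M)).asIdeal.inertiaDeg' P.asIdeal, ?_, fun x => ?_⟩
      · refine Nat.mul_pos (Nat.pos_of_ne_zero ?_) (Nat.pos_of_ne_zero fun h => ?_)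
        · exact Ideal.IsDedekindDomain.ramificationIdx'_ne_zero_of_liesOver P.asIdeal (P.under (𝓞 M)).ne_bot
        · rw [h, pow_zero] at hf
          have h2 := absNorm_gt P
          omega
      · show _ = _ * logv x (.inl (P.under (𝓞 M)))
        rw [logv_inl, logv_inl, ← HeightOneSpectrum.valuation_liesOver N (P.under (𝓞 M)) P x,
          WithZero.log_pow, hf]
        push_cast
        rw [Real.log_pow, nsmul_eq_mul]
        push_cast
        ring
    · refine ⟨v.mult / (v.comap (algebraMap M N)).mult, ?_, fun x => ?_⟩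
      · exact Nat.div_pos (InfinitePlace.mult_comap_le _ _) InfinitePlace.mult_pos
      · show (v.mult : ℝ) * Real.log (v (algebraMap M N x)) =
          _ * (((v.comap (algebraMap M N)).mult : ℝ) * Real.log ((v.comap (algebraMap M N)) x))
        rw [InfinitePlace.comap_apply, ← mul_assoc]
        congr 1
        have h2 : v.mult = v.mult / (v.comap (algebraMap M N)).mult *
            (v.comap (algebraMap M N)).mult := by
          have h3 := InfinitePlace.mult_comap_le (algebraMap M N) v
          have h4 := InfinitePlace.mult_pos (w := v.comap (algebraMap M N))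
          have h5 : v.mult ≤ 2 := by
            unfold InfinitePlace.mult
            split_ifs <;> omega
          rcases (show (v.comap (algebraMap M N)).mult = 1 ∨ (v.comap (algebraMap M N)).mult = 2 by
            omega) with h6 | h6
          · rw [h6]
            omega
          · rw [h6]
            omega
        exact_mod_cast h2
  choose n hn hx using h1
  exact ⟨n, hn, fun x w => hx w x⟩

theorem exists_over (p : HeightOneSpectrum (𝓞 M)) :
    ∃ P : HeightOneSpectrum (𝓞 N), P.under (𝓞 M) = p := by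
  have hmax : p.asIdeal.IsMaximal := p.isMaximal
  obtain ⟨Q, hQ, hQ2⟩ := Ideal.exists_maximal_ideal_liesOver_of_isIntegral (S := 𝓞 N) p.asIdeal
  have hne : Q ≠ ⊥ := by
    intro h
    have h2 := hQ2.over
    rw [h, Ideal.under_bot] at h2
    exact p.ne_bot h2
  refine ⟨⟨Q, hQ.isPrime, hne⟩, ?_⟩
  apply HeightOneSpectrum.ext
  exact hQ2.over.symm

end tower

section aut

variable {N : Type} [Field N] [NumberField N]

theorem int_aut (E : 𝓞 N ≃+* 𝓞 N) (P Q : HeightOneSpectrum (𝓞 N))
    (h : Q.asIdeal = P.asIdeal.comap (E : 𝓞 N →+* 𝓞 N)) (r : 𝓞 N) :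
    P.intValuation (E r) = Q.intValuation r := by
  by_cases hr : r = 0
  · rw [hr, map_zero, map_zero, map_zero]
  · have hr' : E r ≠ 0 := by rwa [Ne, EmbeddingLike.map_eq_zero_iff]
    have hpow : ∀ n : ℕ, E r ∈ P.asIdeal ^ n ↔ r ∈ Q.asIdeal ^ n := by
      intro n
      have h1 : Q.asIdeal ^ n = (P.asIdeal ^ n).comap (E : 𝓞 N →+* 𝓞 N) := by
        rw [h]
        have h2 : ∀ I : Ideal (𝓞 N), I.comap (E : 𝓞 N →+* 𝓞 N) = I.map (E.symm : 𝓞 N →+* 𝓞 N) :=
          fun I => (Ideal.map_symm E).symm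
        rw [h2, h2, Ideal.map_pow]
      rw [h1]
      exact Iff.rfl
    have hiff : ∀ n : ℕ, P.intValuation (E r) ≤ WithZero.exp (-(n : ℤ)) ↔
        Q.intValuation r ≤ WithZero.exp (-(n : ℤ)) := fun n => by
      rw [HeightOneSpectrum.intValuation_le_pow_iff_mem, HeightOneSpectrum.intValuation_le_pow_iff_mem]
      exact hpow n
    rw [HeightOneSpectrum.intValuation_eq_exp_neg_multiplicity P hr',
      HeightOneSpectrum.intValuation_eq_exp_neg_multiplicity Q hr] at hiff ⊢
    refine le_antisymm ?_ ?_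
    · exact (hiff _).2 le_rfl
    · exact (hiff _).1 le_rfl

theorem val_aut (E : N ≃+* N) (P Q : HeightOneSpectrum (𝓞 N))
    (h : Q.asIdeal = P.asIdeal.comap (RingOfIntegers.mapRingEquiv E : 𝓞 N →+* 𝓞 N)) (x : N) :
    P.valuation N (E x) = Q.valuation N x := by
  obtain ⟨a, b, -, rfl⟩ := IsFractionRing.div_surjective (A := 𝓞 N) x
  have h1 : ∀ r : 𝓞 N, P.valuation N (E (algebraMap (𝓞 N) N r)) = Q.valuation N (algebraMap (𝓞 N) N r) := by
    intro r
    have h2 : E (algebraMap (𝓞 N) N r) = algebraMap (𝓞 N) N (RingOfIntegers.mapRingEquiv E r) := rfl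
    rw [h2, HeightOneSpectrum.valuation_of_algebraMap, HeightOneSpectrum.valuation_of_algebraMap]
    exact int_aut _ P Q h r
  rw [map_div₀, map_div₀, map_div₀, h1, h1]

end aut

theorem logv_prod {N : Type} [Field N] [NumberField N] {ι : Type} (s : Finset ι) (u : ι → N)
    (hu : ∀ i ∈ s, u i ≠ 0) (w : Pl N) : logv (∏ i ∈ s, u i) w = ∑ i ∈ s, logv (u i) w := by
  rcases w with w | v
  · show Real.log (NumberField.HeightOneSpectrum.adicAbv N w (∏ i ∈ s, u i)) =
      ∑ i ∈ s, Real.log (NumberField.HeightOneSpectrum.adicAbv N w (u i))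
    rw [map_prod, Real.log_prod]
    intro i hi
    exact (AbsoluteValue.ne_zero_iff _).2 (hu i hi)
  · show (v.mult : ℝ) * Real.log (v (∏ i ∈ s, u i)) = ∑ i ∈ s, (v.mult : ℝ) * Real.log (v (u i))
    rw [map_prod, Real.log_prod, Finset.mul_sum]
    intro i hi
    rw [Ne, map_eq_zero]
    exact hu i hi

section gal

variable {F M N : Type} [Field F] [NumberField F] [Field M] [NumberField M] [Field N] [NumberField N]
    [Algebra F M] [Algebra F N] [Algebra M N] [IsScalarTower F M N] [IsGalois F M] [IsGalois F N]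

open Classical in
/-- the product over the elements above `y` -/
theorem prod_fib (y : M ≃ₐ[F] M) (α : N) :
    ∏ g ∈ Finset.univ.filter (fun g : N ≃ₐ[F] N => AlgEquiv.restrictNormalHom M g = y), g α =
      algebraMap M N (y (Algebra.norm M α)) := by
  have : IsGalois M N := IsGalois.tower_top_of_isGalois F M N
  obtain ⟨g0, hg0⟩ := AlgEquiv.restrictNormalHom_surjective (F := F) (K₁ := M) N y
  have hres : ∀ (g : N ≃ₐ[F] N) (x : M),
      algebraMap M N (AlgEquiv.restrictNormalHom M g x) = g (algebraMap M N x) := fun g x =>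
    AlgEquiv.restrictNormal_commutes g M x
  have h1 : algebraMap M N (y (Algebra.norm M α)) = ∏ h : N ≃ₐ[M] N, g0 (h α) := by
    rw [← hg0, hres, Algebra.norm_eq_prod_automorphisms, map_prod]
  rw [h1]
  symm
  refine Finset.prod_bij (fun (h : N ≃ₐ[M] N) _ => g0 * h.restrictScalars F) ?_ ?_ ?_ ?_
  · intro h _
    rw [Finset.mem_filter]
    refine ⟨Finset.mem_univ _, ?_⟩
    rw [map_mul, hg0]
    have h2 : AlgEquiv.restrictNormalHom M (h.restrictScalars F : N ≃ₐ[F] N) = 1 := by
      apply AlgEquiv.ext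
      intro x
      apply (algebraMap M N).injective
      rw [hres]
      exact h.commutes x
    rw [h2, mul_one]
  · intro h _ h' _ hh
    have h2 := mul_left_cancel hh
    apply AlgEquiv.ext
    intro x
    exact congrArg (fun k : N ≃ₐ[F] N => k x) h2
  · intro g hg
    rw [Finset.mem_filter] at hg
    have h2 : AlgEquiv.restrictNormalHom M (g0⁻¹ * g : N ≃ₐ[F] N) = 1 := by
      rw [map_mul, map_inv, hg0, hg.2, inv_mul_cancel]
    let h : N ≃ₐ[M] N := { (g0⁻¹ * g : N ≃ₐ[F] N).toRingEquiv with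
      commutes' := fun x => by
        have h3 := hres (g0⁻¹ * g) x
        rw [h2] at h3
        exact h3.symm }
    refine ⟨h, Finset.mem_univ _, ?_⟩
    have h3 : h.restrictScalars F = g0⁻¹ * g := AlgEquiv.ext fun x => rfl
    rw [h3, mul_inv_cancel_left]
  · intro h _
    rfl

end gal

/-- **NRM** -/
theorem nrm : S_NRM := by
  classical
  intro F M N _ _ _ _ _ _ _ _ _ _ _ _
  obtain ⟨n, hn, hnx⟩ := exists_n (M := M) (N := N)
  refine ⟨⟨n, hn, fun χ α w hα => ?_⟩, fun T T' α hT hα => ?_⟩
  · unfold ell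
    rw [← Finset.sum_fiberwise (s := (Finset.univ : Finset (N ≃ₐ[F] N)))
      (g := fun g : N ≃ₐ[F] N => AlgEquiv.restrictNormalHom M g), Finset.mul_sum]
    refine Finset.sum_congr rfl fun y _ => ?_
    have h1 : ∑ g ∈ Finset.univ.filter (fun g : N ≃ₐ[F] N => AlgEquiv.restrictNormalHom M g = y),
        logv (g α) w = n w * logv (y (Algebra.norm M α)) (dn M w) := by
      rw [← hnx, ← prod_fib y α, logv_prod]
      intro g _
      rw [Ne, map_eq_zero]
      exact hα
    have h2 : ∀ g ∈ Finset.univ.filter (fun g : N ≃ₐ[F] N => AlgEquiv.restrictNormalHom M g = y),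
        ((up N χ g : ℂˣ) : ℂ) * ((logv (g α) w : ℝ) : ℂ) =
          ((χ y : ℂˣ) : ℂ) * ((logv (g α) w : ℝ) : ℂ) := by
      intro g hg
      rw [Finset.mem_filter] at hg
      have h3 : up N χ g = χ y := by
        unfold up
        rw [MonoidHom.comp_apply, hg.2]
      rw [h3]
    rw [Finset.sum_congr rfl h2, ← Finset.mul_sum, ← Complex.ofReal_sum, h1]
    push_cast
    ring
  · have : IsGalois M N := IsGalois.tower_top_of_isGalois F M N
    refine ⟨Algebra.norm_ne_zero_iff.2 hα.1, fun p hp => ?_⟩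
    obtain ⟨P, hP⟩ := exists_over (N := N) p
    have h1 : ∀ h : N ≃ₐ[M] N, P.valuation N (h α) = 1 := by
      intro h
      let E : N ≃+* N := h.toRingEquiv
      let Q : HeightOneSpectrum (𝓞 N) := HeightOneSpectrum.comap
        (RingOfIntegers.mapRingEquiv E : 𝓞 N →+* 𝓞 N) (RingOfIntegers.mapRingEquiv E).surjective P
      have hQ : Q.under (𝓞 M) = p := by
        rw [← hP]
        apply HeightOneSpectrum.ext
        ext x
        have h2 : RingOfIntegers.mapRingEquiv E (algebraMap (𝓞 M) (𝓞 N) x) =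
            algebraMap (𝓞 M) (𝓞 N) x := by
          apply RingOfIntegers.ext
          exact h.commutes (x : M)
        show RingOfIntegers.mapRingEquiv E (algebraMap (𝓞 M) (𝓞 N) x) ∈ P.asIdeal ↔
          algebraMap (𝓞 M) (𝓞 N) x ∈ P.asIdeal
        rw [h2]
      have h3 : Q ∉ T' := fun h4 => hp (by
        rw [← hQ]
        exact hT Q h4)
      have h4 := (abv_eq_one_iff α Q).1 (hα.2 Q h3)
      have h5 := val_aut E P Q rfl α
      rw [h4] at h5
      exact h5
    have h2 : P.valuation N (algebraMap M N (Algebra.norm M α)) = 1 := by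
      rw [Algebra.norm_eq_prod_automorphisms, map_prod]
      exact Finset.prod_eq_one fun h _ => h1 h
    have h3 := hnx (Algebra.norm M α) (.inl P)
    rw [logv_inl, h2, WithZero.log_one] at h3
    have h4 : logv (Algebra.norm M α) (dn M (.inl P)) = 0 := by
      rw [Int.cast_zero, zero_mul] at h3
      have h5 : ((n (.inl P) : ℕ) : ℝ) ≠ 0 := by
        have := hn (.inl P)
        positivity
      exact (mul_eq_zero.1 h3.symm).resolve_left h5
    have h5 : dn M (Sum.inl P : Pl N) = .inl p := by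
      show Sum.inl (P.under (𝓞 M)) = _
      rw [hP]
    rw [h5, logv_inl] at h4
    rw [abv_eq_one_iff]
    have h6 : Real.log ((Ideal.absNorm p.asIdeal : ℕ) : ℝ) ≠ 0 := by
      have h7 := absNorm_gt p
      exact (Real.log_pos (by exact_mod_cast h7)).ne'
    have h7 : WithZero.log (p.valuation M (Algebra.norm M α)) = 0 := by
      exact_mod_cast (mul_eq_zero.1 h4).resolve_right h6
    have h8 : p.valuation M (Algebra.norm M α) ≠ 0 :=
      (Valuation.ne_zero_iff _).2 (Algebra.norm_ne_zero_iff.2 hα.1)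
    rw [← WithZero.exp_log h8, h7, WithZero.exp_zero]

end Pool.Agent.Q190.SI
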